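import Pool.Agent.Y305.WN.Stm

/-!
# WN-INJ: an isomorphic copy of `C(βℕ)` is complemented (helper550, project of helper305)
-/

set_option autoImplicit false

open Filter Topology Set
open scoped ENNReal NNReal
open Pool.Agent.H86R3 Pool.Agent.H86R3.Wnc Pool.Agent.H86R3.JB
open Pool.Agent.Y305.WN

namespace Pool.Agent.Y550.WN

universe u

/-- a continuous function on `βℕ` is determined by its values at the integers -/
lemma ext_val {f g : C(StoneCech ℕ, ℂ)} (h : ∀ n, val f n = val g n) : f = g := by
  have h1 : (f : StoneCech ℕ → ℂ) = g := by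
    refine denseRange_stoneCechUnit.equalizer f.continuous g.continuous ?_
    funext n
    exact h n
  exact ContinuousMap.coe_injective h1

/-- a bounded sequence extends to `βℕ` -/
lemma exists_val (v : ℕ → ℂ) (R : ℝ) (hR : 0 ≤ R) (hv : ∀ n, ‖v n‖ ≤ R) :
    ∃ f : C(StoneCech ℕ, ℂ), (∀ n, val f n = v n) ∧ ‖f‖ ≤ R := by
  let g : ℕ → Metric.closedBall (0 : ℂ) R := fun n => ⟨v n, by
    rw [Metric.mem_closedBall, dist_zero_right]; exact hv n⟩
  have hg : Continuous g := continuous_of_discreteTopology
  have : CompactSpace (Metric.closedBall (0 : ℂ) R) :=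
    isCompact_iff_compactSpace.mp (isCompact_closedBall _ _)
  let f : C(StoneCech ℕ, ℂ) :=
    ⟨fun x => Subtype.val (stoneCechExtend hg x),
      continuous_subtype_val.comp (continuous_stoneCechExtend hg)⟩
  refine ⟨f, fun n => ?_, ?_⟩
  · change ((stoneCechExtend hg (stoneCechUnit n) : Metric.closedBall (0 : ℂ) R) : ℂ) = v n
    rw [stoneCechExtend_stoneCechUnit]
  · rw [ContinuousMap.norm_le _ hR]
    intro x
    have h := (stoneCechExtend hg x).2
    rw [Metric.mem_closedBall, dist_zero_right] at h
    exact h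

/-- the value at an integer as a linear map -/
noncomputable def evl (n : ℕ) : C(StoneCech ℕ, ℂ) →ₗ[ℂ] ℂ where
  toFun g := val g n
  map_add' _ _ := rfl
  map_smul' _ _ := rfl

theorem inj : S_INJ.{u} := by
  intro X _ _ T C hT
  have hinj : Function.Injective T.toLinearMap := by
    intro g h hgh
    have h1 : T (g - h) = 0 := by
      rw [map_sub, sub_eq_zero]
      exact hgh
    have h2 := hT (g - h)
    rw [h1, norm_zero, mul_zero] at h2
    exact sub_eq_zero.1 (norm_eq_zero.1 (le_antisymm h2 (norm_nonneg _)))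
  have hC : 0 ≤ max C 0 := le_max_right _ _
  let e : C(StoneCech ℕ, ℂ) ≃ₗ[ℂ] LinearMap.range T.toLinearMap :=
    LinearEquiv.ofInjective T.toLinearMap hinj
  have he : ∀ x : LinearMap.range T.toLinearMap, T (e.symm x) = (x : X) := by
    intro x
    have h1 : ((e (e.symm x) : LinearMap.range T.toLinearMap) : X) = T (e.symm x) := rfl
    rw [← h1, e.apply_symm_apply]
  let φ : ℕ → StrongDual ℂ (LinearMap.range T.toLinearMap) := fun n =>
    LinearMap.mkContinuous ((evl n).comp e.symm.toLinearMap) (max C 0) (fun x => by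
      change ‖val (e.symm x) n‖ ≤ _
      refine (norm_val_le _ n).trans ((hT _).trans ?_)
      rw [he x]
      exact mul_le_mul_of_nonneg_right (le_max_left _ _) (norm_nonneg _))
  have hφ : ∀ n x, φ n x = val (e.symm x) n := fun n x => rfl
  have hφn : ∀ n, ‖φ n‖ ≤ max C 0 := fun n => LinearMap.mkContinuous_norm_le _ hC _
  choose ψ hψ1 hψ2 using fun n => exists_extension_norm_eq (LinearMap.range T.toLinearMap) (φ n)
  have hb : ∀ (x : X) (n : ℕ), ‖ψ n x‖ ≤ max C 0 * ‖x‖ := by
    intro x n
    refine ((ψ n).le_opNorm x).trans (mul_le_mul_of_nonneg_right ?_ (norm_nonneg _))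
    rw [hψ2]
    exact hφn n
  choose P0 hP1 hP2 using fun x : X => exists_val (fun n => ψ n x) (max C 0 * ‖x‖)
    (mul_nonneg hC (norm_nonneg _)) (hb x)
  let P : X →L[ℂ] C(StoneCech ℕ, ℂ) :=
    LinearMap.mkContinuous
      { toFun := P0
        map_add' := by
          intro x y
          refine ext_val fun n => ?_
          have h1 : val (P0 x + P0 y) n = val (P0 x) n + val (P0 y) n := rfl
          rw [h1, hP1, hP1, hP1, map_add]
        map_smul' := by
          intro c x
          refine ext_val fun n => ?_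
          have h1 : val ((RingHom.id ℂ) c • P0 x) n = c * val (P0 x) n := rfl
          rw [h1, hP1, hP1, map_smul, smul_eq_mul] }
      (max C 0) hP2
  refine ⟨P, fun g => ext_val fun n => ?_⟩
  have h1 : val (P (T g)) n = ψ n (T g) := hP1 (T g) n
  have h2 : ψ n (T g) = φ n (e g) := hψ1 n (e g)
  rw [h1, h2, hφ, e.symm_apply_apply]

end Pool.Agent.Y550.WN
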